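import Pool.Agent.PPX.Final
import Pool.Agent.PPX.NIS

/-!
# MP_0bf616_gt: Petty's conjectured projection inequality, with the exact constant, in high
dimensions, for nearly isoperimetric bodies and for bodies with irreducible symmetry

There are absolute constants `c > 0` and `n₀` such that for all `n ≥ n₀` and all convex bodies
`K` in `R^n` the inequality `|Π K| ≥ κ_{n-1}^n κ_n^{-(n-2)} |K|^{n-1}` holds

* if some linear image of `K` has isoperimetric ratio less than `1 + c / n` times that of the
  ball, and
* if no subspace other than `0` and `R^n` is invariant under the linear parts of all affine maps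
  which map `K` onto itself.
-/

set_option autoImplicit false

namespace Pool.Agent.Results.MP_0bf616_gt.HighDimensionalExact

open MeasureTheory
open scoped Pointwise

noncomputable section

/-- Euclidean space of dimension `n`. -/
abbrev E (n : ℕ) := EuclideanSpace ℝ (Fin n)

/-- `K` is a convex body: compact, convex, with nonempty interior. -/
def IsConvexBody {n : ℕ} (K : Set (E n)) : Prop :=
  IsCompact K ∧ Convex ℝ K ∧ (interior K).Nonempty

/-- Lebesgue measure in `R^n`, as a real number. -/
def vol {n : ℕ} (K : Set (E n)) : ℝ := (volume K).toReal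

/-- `κ_n`, the volume of the closed unit ball of `R^n`. -/
def kappa (n : ℕ) : ℝ := vol (Metric.closedBall (0 : E n) 1)

/-- The hyperplane `u^⊥`. -/
def hyp {n : ℕ} (u : E n) : Submodule ℝ (E n) := (ℝ ∙ u)ᗮ

/-- The Lebesgue measure (canonical volume) of a subset `S` of a finite-dimensional Euclidean
space `F`, as a real number. -/
def volIn (F : Type) [NormedAddCommGroup F] [InnerProductSpace ℝ F]
    [FiniteDimensional ℝ F] [MeasurableSpace F] [BorelSpace F] (S : Set F) : ℝ :=
  ((measureSpaceOfInnerProductSpace (E := F)).volume S).toReal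

/-- The orthogonal projection `K | u^⊥` of `K` onto `u^⊥`: all `y` in `u^⊥` such that the line
`y + R u` meets `K`. -/
def proj {n : ℕ} (K : Set (E n)) (u : E n) : Set ↥(hyp u) :=
  {y | ∃ a : ℝ, (y : E n) + a • u ∈ K}

/-- `λ_{n-1}(K | u^⊥)`, the `(n-1)`-dimensional Lebesgue measure of the projection. -/
def shadow {n : ℕ} (K : Set (E n)) (u : E n) : ℝ := volIn ↥(hyp u) (proj K u)

/-- The projection body `Π K`: all `y` with `⟨u, y⟩ ≤ λ_{n-1}(K | u^⊥)` for every unit
vector `u`. -/
def projBody {n : ℕ} (K : Set (E n)) : Set (E n) :=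
  {y | ∀ u : E n, ‖u‖ = 1 → inner ℝ u y ≤ shadow K u}

/-- Some linear image `T K` of `K` with the volume `κ_n` of the unit ball `B` satisfies
`|T K + t B| < κ_n (1 + (1 + η) n t)` for some `t > 0`.  By Steiner's formula this means that the
surface area of this image is less than `(1 + η) n κ_n`, that is `1 + η` times the surface area
of `B`. -/
def NearlyIsoperimetric {n : ℕ} (K : Set (E n)) (η : ℝ) : Prop :=
  ∃ T : E n →L[ℝ] E n, vol (T '' K) = kappa n ∧ ∃ t : ℝ, 0 < t ∧
    vol (T '' K + t • Metric.closedBall (0 : E n) 1) < kappa n * (1 + (1 + η) * n * t)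

/-- The affine symmetries of `K` act irreducibly: no subspace other than `0` and `R^n` is
invariant under the linear parts `A` of all affine maps `x ↦ A x + z` which map `K` onto
itself. -/
def IrreducibleSymmetry {n : ℕ} (K : Set (E n)) : Prop :=
  ∀ V : Submodule ℝ (E n), (∀ (A : E n →ₗ[ℝ] E n) (z : E n),
    (fun x => A x + z) '' K = K → ∀ x ∈ V, A x ∈ V) → V = ⊥ ∨ V = ⊤

/-- Petty's conjectured projection inequality for the body `K`. -/
def PettyInequality {n : ℕ} (K : Set (E n)) : Prop :=
  kappa (n - 1) ^ n / kappa n ^ (n - 2) * vol K ^ (n - 1) ≤ vol (projBody K)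

/-- In all sufficiently high dimensions Petty's conjectured projection inequality holds for all
nearly isoperimetric convex bodies and for all convex bodies with irreducible symmetry. -/
theorem result : ∃ (c : ℝ) (n₀ : ℕ), 0 < c ∧ ∀ n : ℕ, n₀ ≤ n → ∀ K : Set (E n),
    IsConvexBody K → NearlyIsoperimetric K (c / n) ∨ IrreducibleSymmetry K →
      PettyInequality K := by
  obtain ⟨c, n₁, hc, h1⟩ := PPX.nis_proof PPX.t_FAA PPI.t_AVE
  obtain ⟨n₂, h2⟩ := PPX.t_FBC
  refine ⟨c, max 2 (max n₁ n₂), hc, ?_⟩
  intro n hn K hK h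
  have hn2 : 2 ≤ n := le_trans (le_max_left _ _) hn
  rcases h with h | h
  · exact h1 n K (le_trans (le_trans (le_max_left _ _) (le_max_right _ _)) hn) hn2 hK.2.1 hK.1
      hK.2.2 h
  · exact h2 n K (le_trans (le_trans (le_max_right _ _) (le_max_right _ _)) hn) hn2 hK.2.1 hK.1
      hK.2.2 h

end

end Pool.Agent.Results.MP_0bf616_gt.HighDimensionalExact
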