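import Pool.Agent.PPG.Final
import Pool.Agent.PPG.GAP

/-!
# MP_0bf616_gt: Petty's conjectured projection inequality for bodies with an
isoperimetric gap

There are absolute constants `c, C > 0` such that the following holds for every `n ≥ 2` and every
convex body `K` in `R^n`.  If, for some `η ≥ C log n / n`, every linear image of `K` has
isoperimetric ratio at least `1 + η` times that of the ball, then

`|Π K| > (1 + η)^(c n) · κ_{n-1}^n κ_n^{-(n-2)} · |K|^{n-1}`.
-/

set_option autoImplicit false

namespace Pool.Agent.Results.MP_0bf616_gt.IsoperimetricGap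

open MeasureTheory
open scoped Pointwise

noncomputable section

/-- Euclidean space of dimension `n`. -/
abbrev E (n : ℕ) := EuclideanSpace ℝ (Fin n)

/-- `K` is a convex body: compact, convex, with nonempty interior. -/
def IsConvexBody {n : ℕ} (K : Set (E n)) : Prop :=
  IsCompact K ∧ Convex ℝ K ∧ (interior K).Nonempty

/-- Lebesgue measure in `R^n`, as a real number. -/
def vol {n : ℕ} (K : Set (E n)) : ℝ := (volume K).toReal

/-- `κ_n`, the volume of the closed unit ball of `R^n`. -/
def kappa (n : ℕ) : ℝ := vol (Metric.closedBall (0 : E n) 1)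

/-- The hyperplane `u^⊥`. -/
def hyp {n : ℕ} (u : E n) : Submodule ℝ (E n) := (ℝ ∙ u)ᗮ

/-- The Lebesgue measure (canonical volume) of a subset `S` of a finite-dimensional Euclidean
space `F`, as a real number. -/
def volIn (F : Type) [NormedAddCommGroup F] [InnerProductSpace ℝ F]
    [FiniteDimensional ℝ F] [MeasurableSpace F] [BorelSpace F] (S : Set F) : ℝ :=
  ((measureSpaceOfInnerProductSpace (E := F)).volume S).toReal

/-- The orthogonal projection `K | u^⊥` of `K` onto `u^⊥`: all `y` in `u^⊥` such that the line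
`y + R u` meets `K`. -/
def proj {n : ℕ} (K : Set (E n)) (u : E n) : Set ↥(hyp u) :=
  {y | ∃ a : ℝ, (y : E n) + a • u ∈ K}

/-- `λ_{n-1}(K | u^⊥)`, the `(n-1)`-dimensional Lebesgue measure of the projection. -/
def shadow {n : ℕ} (K : Set (E n)) (u : E n) : ℝ := volIn ↥(hyp u) (proj K u)

/-- The projection body `Π K`: all `y` with `⟨u, y⟩ ≤ λ_{n-1}(K | u^⊥)` for every unit
vector `u`. -/
def projBody {n : ℕ} (K : Set (E n)) : Set (E n) :=
  {y | ∀ u : E n, ‖u‖ = 1 → inner ℝ u y ≤ shadow K u}

/-- Every linear image `T K` of `K` with the volume `κ_n` of the unit ball `B` satisfies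
`|T K + t B| ≥ κ_n (1 + (1 + η) n t)` for all `t > 0`.  By Steiner's formula this means that the
surface area of every such image is at least `(1 + η) n κ_n`, that is `1 + η` times the surface
area of `B`. -/
def HasIsoperimetricGap {n : ℕ} (K : Set (E n)) (η : ℝ) : Prop :=
  ∀ T : E n →L[ℝ] E n, vol (T '' K) = kappa n → ∀ t : ℝ, 0 < t →
    kappa n * (1 + (1 + η) * n * t) ≤ vol (T '' K + t • Metric.closedBall (0 : E n) 1)

/-- Petty's conjectured projection inequality holds, strictly and with a gain `(1 + η)^(c n)`,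
for all convex bodies with isoperimetric gap `η ≥ C log n / n`. -/
theorem result : ∃ c C : ℝ, 0 < c ∧ 0 < C ∧ ∀ n : ℕ, 2 ≤ n → ∀ K : Set (E n),
    IsConvexBody K → ∀ η : ℝ, C * Real.log n / n ≤ η → HasIsoperimetricGap K η →
      (1 + η) ^ (c * n) * (kappa (n - 1) ^ n / kappa n ^ (n - 2) * vol K ^ (n - 1)) <
        vol (projBody K) := by
  obtain ⟨c, C, hc, hC, h⟩ := PPG.gap_proof PPG.t_BKG PPG.t_KST PPI.t_AVE
  exact ⟨c, C, hc, hC, fun n hn K hK η hη hgap => h n hn K hK.2.1 hK.1 hK.2.2 η hη hgap⟩

end

end Pool.Agent.Results.MP_0bf616_gt.IsoperimetricGap
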