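import Pool.Agent.PPG.Final

/-!
# MP_0bf616_gt: Petty's conjectured projection inequality for polytopes with at most
`(c n / log n)^(n/2)` facets

There are `c > 0` and `n₀` such that for every `n ≥ n₀` and every convex body `K` in `R^n` which
is an intersection of `N ≤ (c n / log n)^(n/2)` closed half-spaces,

`|Π K| > κ_{n-1}^n κ_n^{-(n-2)} · |K|^{n-1}`.
-/

set_option autoImplicit false

namespace Pool.Agent.Results.MP_0bf616_gt.ManyFacets

open MeasureTheory

noncomputable section

/-- Euclidean space of dimension `n`. -/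
abbrev E (n : ℕ) := EuclideanSpace ℝ (Fin n)

/-- `K` is a convex body: compact, convex, with nonempty interior. -/
def IsConvexBody {n : ℕ} (K : Set (E n)) : Prop :=
  IsCompact K ∧ Convex ℝ K ∧ (interior K).Nonempty

/-- Lebesgue measure in `R^n`, as a real number. -/
def vol {n : ℕ} (K : Set (E n)) : ℝ := (volume K).toReal

/-- `κ_n`, the volume of the closed unit ball of `R^n`. -/
def kappa (n : ℕ) : ℝ := vol (Metric.closedBall (0 : E n) 1)

/-- The hyperplane `u^⊥`. -/
def hyp {n : ℕ} (u : E n) : Submodule ℝ (E n) := (ℝ ∙ u)ᗮ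

/-- The Lebesgue measure (canonical volume) of a subset `S` of a finite-dimensional Euclidean
space `F`, as a real number. -/
def volIn (F : Type) [NormedAddCommGroup F] [InnerProductSpace ℝ F]
    [FiniteDimensional ℝ F] [MeasurableSpace F] [BorelSpace F] (S : Set F) : ℝ :=
  ((measureSpaceOfInnerProductSpace (E := F)).volume S).toReal

/-- The orthogonal projection `K | u^⊥` of `K` onto `u^⊥`: all `y` in `u^⊥` such that the line
`y + R u` meets `K`. -/
def proj {n : ℕ} (K : Set (E n)) (u : E n) : Set ↥(hyp u) :=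
  {y | ∃ a : ℝ, (y : E n) + a • u ∈ K}

/-- `λ_{n-1}(K | u^⊥)`, the `(n-1)`-dimensional Lebesgue measure of the projection. -/
def shadow {n : ℕ} (K : Set (E n)) (u : E n) : ℝ := volIn ↥(hyp u) (proj K u)

/-- The projection body `Π K`: all `y` with `⟨u, y⟩ ≤ λ_{n-1}(K | u^⊥)` for every unit
vector `u`. -/
def projBody {n : ℕ} (K : Set (E n)) : Set (E n) :=
  {y | ∀ u : E n, ‖u‖ = 1 → inner ℝ u y ≤ shadow K u}

/-- `K` is an intersection of `N` closed half-spaces `{x | ⟨v i, x⟩ ≤ b i}`. -/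
def HasFacetsAtMost {n : ℕ} (K : Set (E n)) (N : ℕ) : Prop :=
  ∃ (v : Fin N → E n) (b : Fin N → ℝ), K = {x | ∀ i, inner ℝ (v i) x ≤ b i}

/-- Petty's conjectured projection inequality holds, with strict inequality, for all polytopes
with at most `(c n / log n)^(n/2)` facets in high dimension. -/
theorem result : ∃ (c : ℝ) (n₀ : ℕ), 0 < c ∧ ∀ n : ℕ, n₀ ≤ n → ∀ K : Set (E n),
    IsConvexBody K → ∀ N : ℕ, HasFacetsAtMost K N →
    (N : ℝ) ≤ (c * n / Real.log n) ^ ((n : ℝ) / 2) →
    kappa (n - 1) ^ n / kappa n ^ (n - 2) * vol K ^ (n - 1) < vol (projBody K) := by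
  obtain ⟨c, n₀, hc, h⟩ := PPG.t_FIN.2
  refine ⟨c, n₀, hc, ?_⟩
  intro n hn K hK N hKN hN
  obtain ⟨v, b, rfl⟩ := hKN
  exact h n hn N v b hN hK.1 hK.2.2

end

end Pool.Agent.Results.MP_0bf616_gt.ManyFacets
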