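import Pool.Agent.PPG.Final

/-!
# MP_0bf616_gt: Petty's conjectured projection inequality up to a polynomial factor

There is an absolute constant `C` such that for every `n ≥ 2` and every convex body `K` in `R^n`

`|Π K| ≥ n^(-C) · κ_{n-1}^n κ_n^{-(n-2)} · |K|^{n-1}`.
-/

set_option autoImplicit false

namespace Pool.Agent.Results.MP_0bf616_gt.PolynomialPetty

open MeasureTheory

noncomputable section

/-- Euclidean space of dimension `n`. -/
abbrev E (n : ℕ) := EuclideanSpace ℝ (Fin n)

/-- `K` is a convex body: compact, convex, with nonempty interior. -/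
def IsConvexBody {n : ℕ} (K : Set (E n)) : Prop :=
  IsCompact K ∧ Convex ℝ K ∧ (interior K).Nonempty

/-- Lebesgue measure in `R^n`, as a real number. -/
def vol {n : ℕ} (K : Set (E n)) : ℝ := (volume K).toReal

/-- `κ_n`, the volume of the closed unit ball of `R^n`. -/
def kappa (n : ℕ) : ℝ := vol (Metric.closedBall (0 : E n) 1)

/-- The hyperplane `u^⊥`. -/
def hyp {n : ℕ} (u : E n) : Submodule ℝ (E n) := (ℝ ∙ u)ᗮ

/-- The Lebesgue measure (canonical volume) of a subset `S` of a finite-dimensional Euclidean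
space `F`, as a real number. -/
def volIn (F : Type) [NormedAddCommGroup F] [InnerProductSpace ℝ F]
    [FiniteDimensional ℝ F] [MeasurableSpace F] [BorelSpace F] (S : Set F) : ℝ :=
  ((measureSpaceOfInnerProductSpace (E := F)).volume S).toReal

/-- The orthogonal projection `K | u^⊥` of `K` onto `u^⊥`: all `y` in `u^⊥` such that the line
`y + R u` meets `K`. -/
def proj {n : ℕ} (K : Set (E n)) (u : E n) : Set ↥(hyp u) :=
  {y | ∃ a : ℝ, (y : E n) + a • u ∈ K}

/-- `λ_{n-1}(K | u^⊥)`, the `(n-1)`-dimensional Lebesgue measure of the projection. -/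
def shadow {n : ℕ} (K : Set (E n)) (u : E n) : ℝ := volIn ↥(hyp u) (proj K u)

/-- The projection body `Π K`: all `y` with `⟨u, y⟩ ≤ λ_{n-1}(K | u^⊥)` for every unit
vector `u`. -/
def projBody {n : ℕ} (K : Set (E n)) : Set (E n) :=
  {y | ∀ u : E n, ‖u‖ = 1 → inner ℝ u y ≤ shadow K u}

/-- Petty's conjectured projection inequality holds in all dimensions up to a factor `n^(-C)`,
with an absolute constant `C`. -/
theorem result : ∃ C : ℝ, ∀ n : ℕ, 2 ≤ n → ∀ K : Set (E n), IsConvexBody K →
    (n : ℝ) ^ (-C) * (kappa (n - 1) ^ n / kappa n ^ (n - 2)) * vol K ^ (n - 1) ≤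
      vol (projBody K) := by
  obtain ⟨c, C, _, _, h⟩ := PPG.t_FIN.1
  refine ⟨C, fun n hn K hK => ?_⟩
  have h1 := (h n hn K hK.2.1 hK.1 hK.2.2).1
  rw [← mul_assoc] at h1
  exact h1

end

end Pool.Agent.Results.MP_0bf616_gt.PolynomialPetty
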